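import Pool.Agent.Helper40.MR.Defs

/-!
Module SM: smooth sums of `n ^ (-1 + i u)` (van der Corput bound for large `u`, comparison with the
integral for small `u`).
-/

open Finset MeasureTheory
open scoped BigOperators Nat

namespace Pool.Agent.Helper40.MR

/-! ### The tent function -/

theorem sm_tri_lip (s t : ℝ) : |tri s - tri t| ≤ |s - t| / 4 := by
  unfold tri
  rw [max_comm 0, max_comm 0]
  refine (abs_max_sub_max_le_abs _ _ _).trans ?_
  have e : (1 - |s| / 4) - (1 - |t| / 4) = -((|s| - |t|) / 4) := by ring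
  rw [e, abs_neg, abs_div, abs_of_pos (by norm_num : (0 : ℝ) < 4)]
  have := abs_abs_sub_abs_le_abs_sub s t
  linarith

theorem sm_tri_nonneg (s : ℝ) : 0 ≤ tri s := le_max_left _ _

theorem sm_tri_le (s : ℝ) : tri s ≤ 1 := by
  unfold tri
  apply max_le (by norm_num)
  have := abs_nonneg s
  linarith

theorem sm_tri_zero {s : ℝ} (h : 4 ≤ |s|) : tri s = 0 := by
  unfold tri
  apply max_eq_left
  linarith

theorem sm_tri_cont : Continuous tri := by
  unfold tri
  fun_prop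

/-- The integrand in the logarithmic variable. -/
noncomputable def smPsi (L u v : ℝ) : ℂ :=
  ((tri (v - L) : ℝ) : ℂ) * Complex.exp (((u * v : ℝ) : ℂ) * Complex.I)

theorem sm_psi_cont (L u : ℝ) : Continuous (smPsi L u) := by
  unfold smPsi
  have h := sm_tri_cont
  fun_prop

theorem sm_exp_lip (u v w : ℝ) : ‖Complex.exp (((u * v : ℝ) : ℂ) * Complex.I)
    - Complex.exp (((u * w : ℝ) : ℂ) * Complex.I)‖ ≤ |u| * |v - w| := by
  have e : Complex.exp (((u * v : ℝ) : ℂ) * Complex.I) - Complex.exp (((u * w : ℝ) : ℂ) * Complex.I)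
      = Complex.exp (((u * w : ℝ) : ℂ) * Complex.I)
        * (Complex.exp (Complex.I * ((u * (v - w) : ℝ) : ℂ)) - 1) := by
    rw [mul_sub, ← Complex.exp_add, mul_one]
    congr 2
    push_cast
    ring
  rw [e, norm_mul, Complex.norm_exp_ofReal_mul_I, one_mul]
  refine Real.norm_exp_I_mul_ofReal_sub_one_le.trans ?_
  rw [Real.norm_eq_abs, abs_mul]

theorem sm_psi_lip (L u v w : ℝ) : ‖smPsi L u v - smPsi L u w‖ ≤ (1 / 4 + |u|) * |v - w| := by
  have e : smPsi L u v - smPsi L u w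
      = ((tri (v - L) - tri (w - L) : ℝ) : ℂ) * Complex.exp (((u * v : ℝ) : ℂ) * Complex.I)
        + ((tri (w - L) : ℝ) : ℂ) * (Complex.exp (((u * v : ℝ) : ℂ) * Complex.I)
    - Complex.exp (((u * w : ℝ) : ℂ) * Complex.I)) := by
    unfold smPsi
    push_cast
    ring
  rw [e]
  refine (norm_add_le _ _).trans ?_
  rw [norm_mul, norm_mul, Complex.norm_exp_ofReal_mul_I, Complex.norm_real, Complex.norm_real,
    Real.norm_eq_abs, Real.norm_eq_abs, abs_of_nonneg (sm_tri_nonneg _)]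
  have h1 := sm_tri_lip (v - L) (w - L)
  have h2 := sm_exp_lip u v w
  have h3 := sm_tri_le (w - L)
  have h4 := sm_tri_nonneg (w - L)
  have e2 : (v - L) - (w - L) = v - w := by ring
  rw [e2] at h1
  have h5 : tri (w - L) * ‖Complex.exp (((u * v : ℝ) : ℂ) * Complex.I)
    - Complex.exp (((u * w : ℝ) : ℂ) * Complex.I)‖ ≤ 1 * (|u| * |v - w|) :=
    mul_le_mul h3 h2 (norm_nonneg _) (by norm_num)
  nlinarith [abs_nonneg (v - w)]

theorem sm_psi_norm (L u v : ℝ) : ‖smPsi L u v‖ ≤ 1 := by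
  unfold smPsi
  rw [norm_mul, Complex.norm_exp_ofReal_mul_I, Complex.norm_real, Real.norm_eq_abs,
    abs_of_nonneg (sm_tri_nonneg _), mul_one]
  exact sm_tri_le _

theorem sm_psi_zero {L u v : ℝ} (h : 4 ≤ |v - L|) : smPsi L u v = 0 := by
  unfold smPsi
  rw [sm_tri_zero h]
  simp

/-! ### The integral of the tent function -/

theorem sm_Fh (u : ℝ) : ∫ s in (-4 : ℝ)..4, ((tri s : ℝ) : ℂ)
    * Complex.exp (((u * s : ℝ) : ℂ) * Complex.I) = (Fh u : ℂ) := by
  have hc : Continuous fun s : ℝ => ((tri s : ℝ) : ℂ)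
      * Complex.exp (((u * s : ℝ) : ℂ) * Complex.I) := by
    have h := sm_tri_cont
    fun_prop
  rw [← intervalIntegral.integral_add_adjacent_intervals (hc.intervalIntegrable (-4) 0)
    (hc.intervalIntegrable 0 4)]
  have h1 : ∫ s in (-4 : ℝ)..0, ((tri s : ℝ) : ℂ)
      * Complex.exp (((u * s : ℝ) : ℂ) * Complex.I)
      = ∫ s in (-4 : ℝ)..0, (1 + (s : ℂ) / 4) * Complex.exp (((u * s : ℝ) : ℂ) * Complex.I) := by
    apply intervalIntegral.integral_congr
    intro s hs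
    rw [Set.uIcc_of_le (by norm_num)] at hs
    have : tri s = 1 + s / 4 := by
      unfold tri
      rw [abs_of_nonpos hs.2, max_eq_right (by linarith [hs.1])]
      ring
    show ((tri s : ℝ) : ℂ) * _ = _
    rw [this]
    push_cast
    ring
  have h2 : ∫ s in (0 : ℝ)..4, ((tri s : ℝ) : ℂ)
      * Complex.exp (((u * s : ℝ) : ℂ) * Complex.I)
      = ∫ s in (0 : ℝ)..4, (1 - (s : ℂ) / 4) * Complex.exp (((u * s : ℝ) : ℂ) * Complex.I) := by
    apply intervalIntegral.integral_congr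
    intro s hs
    rw [Set.uIcc_of_le (by norm_num)] at hs
    have : tri s = 1 - s / 4 := by
      unfold tri
      rw [abs_of_nonneg hs.1, max_eq_right (by linarith [hs.2])]
    show ((tri s : ℝ) : ℂ) * _ = _
    rw [this]
    push_cast
    ring
  rw [h1, h2]
  have hid : ∀ s : ℝ, HasDerivAt (fun s : ℝ => (s : ℂ)) 1 s := fun s => Complex.ofRealCLM.hasDerivAt
  by_cases hu : u = 0
  · subst hu
    have e : ∀ s : ℝ, Complex.exp (((0 * s : ℝ) : ℂ) * Complex.I) = 1 := by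
      intro s
      simp
    simp only [e, mul_one]
    have d1 : ∀ s : ℝ, HasDerivAt (fun s : ℝ => (s : ℂ) + (s : ℂ) ^ 2 / 8) (1 + (s : ℂ) / 4) s := by
      intro s
      have := (hid s).fun_add (((hid s).fun_pow 2).div_const 8)
      refine this.congr_deriv ?_
      norm_num
      ring
    have d2 : ∀ s : ℝ, HasDerivAt (fun s : ℝ => (s : ℂ) - (s : ℂ) ^ 2 / 8) (1 - (s : ℂ) / 4) s := by
      intro s
      have := (hid s).fun_sub (((hid s).fun_pow 2).div_const 8)
      refine this.congr_deriv ?_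
      norm_num
      ring
    rw [intervalIntegral.integral_eq_sub_of_hasDerivAt (fun s _ => d1 s)
      (Continuous.intervalIntegrable (by fun_prop) _ _),
      intervalIntegral.integral_eq_sub_of_hasDerivAt (fun s _ => d2 s)
      (Continuous.intervalIntegrable (by fun_prop) _ _)]
    unfold Fh
    simp
    norm_num
  · have hu' : (u : ℂ) ≠ 0 := by exact_mod_cast hu
    have hI := Complex.I_ne_zero
    have hE : ∀ s : ℝ, HasDerivAt (fun s : ℝ => Complex.exp (((u * s : ℝ) : ℂ) * Complex.I))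
        (Complex.exp (((u * s : ℝ) : ℂ) * Complex.I) * (u * Complex.I)) s := by
      intro s
      have h := ((hid s).const_mul (u : ℂ)).mul_const Complex.I
      have h' := h.cexp
      simp only [mul_one] at h'
      convert h' using 2
      · push_cast
        rfl
      · push_cast
        rfl
    have d1 : ∀ s : ℝ, HasDerivAt (fun s : ℝ => (1 + (s : ℂ) / 4)
        * Complex.exp (((u * s : ℝ) : ℂ) * Complex.I) / (u * Complex.I)
        + Complex.exp (((u * s : ℝ) : ℂ) * Complex.I) / (4 * u ^ 2))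
        ((1 + (s : ℂ) / 4) * Complex.exp (((u * s : ℝ) : ℂ) * Complex.I)) s := by
      intro s
      have := (((((hid s).div_const 4).const_add 1).fun_mul (hE s)).div_const
        (u * Complex.I)).fun_add ((hE s).div_const (4 * (u : ℂ) ^ 2))
      refine this.congr_deriv ?_
      field_simp
      ring_nf
      rw [Complex.I_sq]
      ring
    have d2 : ∀ s : ℝ, HasDerivAt (fun s : ℝ => (1 - (s : ℂ) / 4)
        * Complex.exp (((u * s : ℝ) : ℂ) * Complex.I) / (u * Complex.I)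
        - Complex.exp (((u * s : ℝ) : ℂ) * Complex.I) / (4 * u ^ 2))
        ((1 - (s : ℂ) / 4) * Complex.exp (((u * s : ℝ) : ℂ) * Complex.I)) s := by
      intro s
      have := (((((hid s).div_const 4).const_sub 1).fun_mul (hE s)).div_const
        (u * Complex.I)).fun_sub ((hE s).div_const (4 * (u : ℂ) ^ 2))
      refine this.congr_deriv ?_
      field_simp
      ring_nf
      rw [Complex.I_sq]
      ring
    rw [intervalIntegral.integral_eq_sub_of_hasDerivAt (fun s _ => d1 s)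
      (Continuous.intervalIntegrable (by fun_prop) _ _),
      intervalIntegral.integral_eq_sub_of_hasDerivAt (fun s _ => d2 s)
      (Continuous.intervalIntegrable (by fun_prop) _ _)]
    unfold Fh
    rw [if_neg hu]
    push_cast
    rw [Complex.cos]
    have e1 : (u : ℂ) * 4 * Complex.I = 4 * u * Complex.I := by ring
    have e2 : (u : ℂ) * -4 * Complex.I = -(4 * u) * Complex.I := by ring
    rw [e1, e2]
    simp only [mul_zero, zero_mul, Complex.exp_zero, zero_div, add_zero, sub_zero]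
    field_simp
    ring

theorem sm_int {L u a b : ℝ} (ha : a ≤ L - 4) (hb : L + 4 ≤ b) : ∫ v in a..b, smPsi L u v
    = Complex.exp (((u * L : ℝ) : ℂ) * Complex.I) * (Fh u : ℂ) := by
  have hi : ∀ a b : ℝ, IntervalIntegrable (smPsi L u) volume a b :=
    fun a b => (sm_psi_cont L u).intervalIntegrable a b
  rw [← intervalIntegral.integral_add_adjacent_intervals (hi a (L - 4)) (hi (L - 4) b),
    ← intervalIntegral.integral_add_adjacent_intervals (hi (L - 4) (L + 4)) (hi (L + 4) b)]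
  have h1 : ∫ v in a..(L - 4), smPsi L u v = 0 := by
    rw [intervalIntegral.integral_congr (g := fun _ => (0 : ℂ))]
    · simp
    · intro v hv
      rw [Set.uIcc_of_le ha] at hv
      apply sm_psi_zero
      rw [abs_of_nonpos (by linarith [hv.2])]
      linarith [hv.2]
  have h2 : ∫ v in (L + 4)..b, smPsi L u v = 0 := by
    rw [intervalIntegral.integral_congr (g := fun _ => (0 : ℂ))]
    · simp
    · intro v hv
      rw [Set.uIcc_of_le hb] at hv
      apply sm_psi_zero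
      rw [abs_of_nonneg (by linarith [hv.1])]
      linarith [hv.1]
  rw [h1, h2, zero_add, add_zero]
  have h3 : ∫ v in (L - 4)..(L + 4), smPsi L u v = ∫ s in (-4 : ℝ)..4, smPsi L u (s + L) := by
    rw [intervalIntegral.integral_comp_add_right]
    congr 1 <;> ring
  rw [h3, ← sm_Fh, ← intervalIntegral.integral_const_mul]
  apply intervalIntegral.integral_congr
  intro s _
  show smPsi L u (s + L) = Complex.exp (((u * L : ℝ) : ℂ) * Complex.I) * (((tri s : ℝ) : ℂ)
    * Complex.exp (((u * s : ℝ) : ℂ) * Complex.I))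
  unfold smPsi
  rw [show s + L - L = s by ring, mul_left_comm, ← Complex.exp_add]
  congr 2
  push_cast
  ring

/-! ### Comparison with the integral -/

theorem sm_step (L u : ℝ) {n : ℕ} (hn : 1 ≤ n) :
    ‖smPsi L u (Real.log n) / n - ∫ v in (Real.log n)..(Real.log (n + 1)), smPsi L u v‖
      ≤ (5 / 4 + |u|) / (n : ℝ) ^ 2 := by
  have hn' : (1 : ℝ) ≤ n := by exact_mod_cast hn
  have hn0 : (0 : ℝ) < n := by linarith
  set d := Real.log (n + 1) - Real.log n with hd
  have hd0 : 0 ≤ d := by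
    rw [hd]
    have := Real.log_le_log hn0 (by linarith : (n : ℝ) ≤ n + 1)
    linarith
  have hlog : d = Real.log (1 + 1 / n) := by
    rw [hd, ← Real.log_div (by positivity) (by positivity)]
    congr 1
    field_simp
  have hd1 : d ≤ 1 / n := by
    rw [hlog]
    have := Real.log_le_sub_one_of_pos (show 0 < 1 + 1 / (n : ℝ) by positivity)
    linarith
  have hd2 : 1 / (n : ℝ) - d ≤ 1 / (n : ℝ) ^ 2 := by
    have h := Real.one_sub_inv_le_log_of_pos (show 0 < 1 + 1 / (n : ℝ) by positivity)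
    rw [← hlog] at h
    have e : 1 - (1 + 1 / (n : ℝ))⁻¹ = 1 / (n + 1) := by
      field_simp
      ring
    rw [e] at h
    have e2 : 1 / (n : ℝ) - 1 / (n + 1) ≤ 1 / (n : ℝ) ^ 2 := by
      rw [div_sub_div _ _ (by positivity) (by positivity), div_le_div_iff₀ (by positivity) (by positivity)]
      nlinarith
    linarith
  have hi : ∀ a b : ℝ, IntervalIntegrable (smPsi L u) volume a b :=
    fun a b => (sm_psi_cont L u).intervalIntegrable a b
  have h1 : ‖∫ v in (Real.log n)..(Real.log (n + 1)), (smPsi L u v - smPsi L u (Real.log n))‖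
      ≤ (1 / 4 + |u|) * d * |Real.log (n + 1) - Real.log n| := by
    apply intervalIntegral.norm_integral_le_of_norm_le_const
    intro v hv
    rw [Set.uIoc_of_le (by linarith)] at hv
    refine (sm_psi_lip L u v _).trans ?_
    apply mul_le_mul_of_nonneg_left _ (by positivity)
    rw [abs_of_nonneg (by linarith [hv.1])]
    linarith [hv.2]
  rw [intervalIntegral.integral_sub (hi _ _) (by simp), intervalIntegral.integral_const] at h1
  have e3 : smPsi L u (Real.log n) / n - ∫ v in (Real.log n)..(Real.log (n + 1)), smPsi L u v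
      = ((1 / (n : ℝ) - d : ℝ) : ℂ) * smPsi L u (Real.log n)
        - ((∫ v in (Real.log n)..(Real.log (n + 1)), smPsi L u v)
          - (Real.log (n + 1) - Real.log n) • smPsi L u (Real.log n)) := by
    rw [← hd, Complex.real_smul]
    push_cast
    ring
  rw [e3]
  refine (norm_sub_le _ _).trans ?_
  rw [norm_mul, Complex.norm_real, Real.norm_eq_abs, abs_of_nonneg (by linarith)]
  rw [abs_of_nonneg hd0] at h1
  have h4 := sm_psi_norm L u (Real.log n)
  have h5 : (1 / (n : ℝ) - d) * ‖smPsi L u (Real.log n)‖ ≤ 1 / (n : ℝ) ^ 2 := by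
    calc (1 / (n : ℝ) - d) * ‖smPsi L u (Real.log n)‖ ≤ (1 / (n : ℝ) - d) * 1 :=
          mul_le_mul_of_nonneg_left h4 (by linarith)
      _ ≤ _ := by linarith
  have h6 : (1 / 4 + |u|) * d * d ≤ (1 / 4 + |u|) / (n : ℝ) ^ 2 := by
    have : d * d ≤ 1 / (n : ℝ) * (1 / n) := mul_le_mul hd1 hd1 hd0 (by positivity)
    calc (1 / 4 + |u|) * d * d = (1 / 4 + |u|) * (d * d) := by ring
      _ ≤ (1 / 4 + |u|) * (1 / (n : ℝ) * (1 / n)) := mul_le_mul_of_nonneg_left this (by positivity)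
      _ = _ := by field_simp
  have h7 : (5 / 4 + |u|) / (n : ℝ) ^ 2 = 1 / (n : ℝ) ^ 2 + (1 / 4 + |u|) / (n : ℝ) ^ 2 := by
    field_simp
    ring
  rw [h7]
  linarith

theorem sm_sum_int (L u : ℝ) (N : ℕ) : ∑ n ∈ Icc 1 N,
    (∫ v in (Real.log n)..(Real.log (n + 1)), smPsi L u v)
      = ∫ v in (0 : ℝ)..(Real.log (N + 1)), smPsi L u v := by
  induction N with
  | zero => simp
  | succ N ih =>
    rw [Finset.sum_Icc_succ_top (by omega), ih]
    push_cast
    rw [intervalIntegral.integral_add_adjacent_intervals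
      ((sm_psi_cont L u).intervalIntegrable _ _) ((sm_psi_cont L u).intervalIntegrable _ _)]

theorem sm_term {M : ℝ} (hM : 0 < M) (u : ℝ) {n : ℕ} (hn : 1 ≤ n) :
    ((tri (Real.log (n / M)) / n : ℝ) : ℂ) * xiu n u = smPsi (Real.log M) u (Real.log n) / n := by
  have hn' : (1 : ℝ) ≤ n := by exact_mod_cast hn
  unfold smPsi xiu
  rw [Real.log_div (by positivity) (by positivity)]
  push_cast
  ring

/-- Comparison with the integral. -/
theorem sm_small {M u : ℝ} (hM : Real.exp 4 ≤ M) :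
    ‖Ksum M u - xiu M u * (Fh u : ℂ)‖ ≤ 4 * Real.exp 12 * (5 / 4 + |u|) / M := by
  have he : (0 : ℝ) < Real.exp 4 := Real.exp_pos 4
  have hM0 : 0 < M := he.trans_le hM
  set L := Real.log M with hL
  have hL4 : 4 ≤ L := by
    rw [hL, Real.le_log_iff_exp_le hM0]
    exact hM
  set N := ⌊Real.exp 4 * M⌋₊ with hN
  have hNle : (N : ℝ) ≤ Real.exp 4 * M := Nat.floor_le (by positivity)
  have hNlt : Real.exp 4 * M < N + 1 := Nat.lt_floor_add_one _
  have h1 : Ksum M u = ∑ n ∈ Icc 1 N, smPsi L u (Real.log n) / n := by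
    unfold Ksum
    apply Finset.sum_congr rfl
    intro n hn
    exact sm_term hM0 u (Finset.mem_Icc.1 hn).1
  have hlogN : L + 4 ≤ Real.log (N + 1) := by
    have : Real.log (Real.exp 4 * M) ≤ Real.log (N + 1) :=
      Real.log_le_log (by positivity) hNlt.le
    rw [Real.log_mul (by positivity) (by positivity), Real.log_exp] at this
    linarith
  have h2 : xiu M u * (Fh u : ℂ) = ∑ n ∈ Icc 1 N,
      (∫ v in (Real.log n)..(Real.log (n + 1)), smPsi L u v) := by
    rw [sm_sum_int, sm_int (by linarith) hlogN]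
    rfl
  rw [h1, h2, ← Finset.sum_sub_distrib]
  refine (norm_sum_le _ _).trans ?_
  have h3 : ∀ n ∈ Icc 1 N, ‖smPsi L u (Real.log n) / n
      - ∫ v in (Real.log n)..(Real.log (n + 1)), smPsi L u v‖
        ≤ 4 * Real.exp 8 * (5 / 4 + |u|) / M ^ 2 := by
    intro n hn
    have hn1 := (Finset.mem_Icc.1 hn).1
    have hn' : (1 : ℝ) ≤ n := by exact_mod_cast hn1
    by_cases hc : Real.log (n + 1) ≤ L - 4
    · have hll : Real.log n ≤ Real.log (n + 1) :=
        Real.log_le_log (by linarith) (by linarith)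
      have e1 : smPsi L u (Real.log n) = 0 := by
        apply sm_psi_zero
        rw [abs_of_nonpos (by linarith)]
        linarith
      have e2 : ∫ v in (Real.log n)..(Real.log (n + 1)), smPsi L u v = 0 := by
        rw [intervalIntegral.integral_congr (g := fun _ => (0 : ℂ))]
        · simp
        · intro v hv
          rw [Set.uIcc_of_le hll] at hv
          apply sm_psi_zero
          rw [abs_of_nonpos (by linarith [hv.2])]
          linarith [hv.2]
      rw [e1, e2]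
      simp
      positivity
    · push Not at hc
      refine (sm_step L u hn1).trans ?_
      have h4 : M / Real.exp 4 < n + 1 := by
        have : Real.exp (L - 4) < Real.exp (Real.log (n + 1)) := Real.exp_lt_exp.2 hc
        rw [Real.exp_sub, Real.exp_log hM0, Real.exp_log (by linarith : (0 : ℝ) < n + 1)] at this
        exact this
      have h5 : M ≤ 2 * Real.exp 4 * n := by
        rw [div_lt_iff₀ he] at h4
        nlinarith
      have h6 : M ^ 2 ≤ 4 * Real.exp 8 * (n : ℝ) ^ 2 := by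
        have : M ^ 2 ≤ (2 * Real.exp 4 * n) ^ 2 := pow_le_pow_left₀ hM0.le h5 2
        have e8 : Real.exp 8 = Real.exp 4 ^ 2 := by
          rw [← Real.exp_nat_mul]
          norm_num
        rw [e8]
        nlinarith
      rw [div_le_div_iff₀ (by positivity) (by positivity)]
      have h7 : 0 ≤ 5 / 4 + |u| := by positivity
      nlinarith
  refine (Finset.sum_le_sum h3).trans ?_
  rw [Finset.sum_const, nsmul_eq_mul, Nat.card_Icc, Nat.add_sub_cancel]
  have h8 : 0 ≤ 4 * Real.exp 8 * (5 / 4 + |u|) / M ^ 2 := by positivity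
  calc (N : ℝ) * (4 * Real.exp 8 * (5 / 4 + |u|) / M ^ 2)
      ≤ (Real.exp 4 * M) * (4 * Real.exp 8 * (5 / 4 + |u|) / M ^ 2) :=
        mul_le_mul_of_nonneg_right hNle h8
    _ = 4 * Real.exp 12 * (5 / 4 + |u|) / M := by
      have e12 : Real.exp 12 = Real.exp 4 * Real.exp 8 := by
        rw [← Real.exp_add]
        norm_num
      rw [e12]
      field_simp

/-! ### Abel summation -/

theorem sm_abel {w : ℕ → ℝ} {z : ℕ → ℂ} {a : ℕ} {B V : ℝ} {b : ℕ} (hab : a ≤ b)
    (hS : ∀ t, a ≤ t → t ≤ b → ‖∑ n ∈ Ioc a t, z n‖ ≤ B)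
    (hV : ∀ n, a ≤ n → n < b → |w (n + 1) - w n| ≤ V) :
    ‖∑ n ∈ Ioc a b, (w n : ℂ) * z n - (w b : ℂ) * ∑ n ∈ Ioc a b, z n‖ ≤ (b - a : ℝ) * (B * V) := by
  induction b, hab using Nat.le_induction with
  | base => simp
  | succ b hab ih =>
    have ih' := ih (fun t h1 h2 => hS t h1 (by omega)) (fun n h1 h2 => hV n h1 (by omega))
    have e : ∑ n ∈ Ioc a (b + 1), (w n : ℂ) * z n - (w (b + 1) : ℂ) * ∑ n ∈ Ioc a (b + 1), z n
        = (∑ n ∈ Ioc a b, (w n : ℂ) * z n - (w b : ℂ) * ∑ n ∈ Ioc a b, z n)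
          - ((w (b + 1) - w b : ℝ) : ℂ) * ∑ n ∈ Ioc a b, z n := by
      rw [Finset.sum_Ioc_succ_top (by omega), Finset.sum_Ioc_succ_top (by omega)]
      push_cast
      ring
    rw [e]
    refine (norm_sub_le _ _).trans ?_
    rw [norm_mul, Complex.norm_real, Real.norm_eq_abs]
    have h1 := hV b hab (by omega)
    have h2 := hS b hab (by omega)
    have h3 : |w (b + 1) - w b| * ‖∑ n ∈ Ioc a b, z n‖ ≤ V * B :=
      mul_le_mul h1 h2 (norm_nonneg _) ((abs_nonneg _).trans h1)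
    push_cast
    linarith

theorem sm_w_var {M : ℝ} (hM : 0 < M) {m n : ℕ} (hm : 1 ≤ m) (hn : m ≤ n) :
    |tri (Real.log (((n + 1 : ℕ) : ℝ) / M)) / ((n + 1 : ℕ) : ℝ) - tri (Real.log (n / M)) / n|
      ≤ 5 / 4 / (m : ℝ) ^ 2 := by
  have hm' : (1 : ℝ) ≤ m := by exact_mod_cast hm
  have hn' : (m : ℝ) ≤ n := by exact_mod_cast hn
  have hn0 : (0 : ℝ) < n := by linarith
  push_cast
  have e : tri (Real.log (((n : ℝ) + 1) / M)) / ((n : ℝ) + 1) - tri (Real.log (n / M)) / n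
      = (tri (Real.log (((n : ℝ) + 1) / M)) - tri (Real.log (n / M))) / n
        - tri (Real.log (((n : ℝ) + 1) / M)) * (1 / n - 1 / (n + 1)) := by
    field_simp
    ring
  rw [e]
  refine (abs_sub _ _).trans ?_
  have h1 : |tri (Real.log (((n : ℝ) + 1) / M)) - tri (Real.log (n / M))| ≤ 1 / n / 4 := by
    refine (sm_tri_lip _ _).trans ?_
    rw [Real.log_div (by positivity) (by positivity), Real.log_div (by positivity) (by positivity)]
    have e2 : Real.log ((n : ℝ) + 1) - Real.log M - (Real.log n - Real.log M)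
        = Real.log (1 + 1 / n) := by
      have : Real.log (1 + 1 / (n : ℝ)) = Real.log ((n : ℝ) + 1) - Real.log n := by
        rw [← Real.log_div (by positivity) (by positivity)]
        congr 1
        field_simp
      rw [this]
      ring
    rw [e2, abs_of_nonneg (Real.log_nonneg (by
      have : 0 < 1 / (n : ℝ) := by positivity
      linarith))]
    have := Real.log_le_sub_one_of_pos (show 0 < 1 + 1 / (n : ℝ) by positivity)
    linarith
  have h2 : |tri (Real.log (((n : ℝ) + 1) / M)) * (1 / n - 1 / (n + 1))| ≤ 1 / (n : ℝ) ^ 2 := by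
    have h3 : 0 ≤ 1 / (n : ℝ) - 1 / (n + 1) := by
      have : 1 / ((n : ℝ) + 1) ≤ 1 / n := one_div_le_one_div_of_le hn0 (by linarith)
      linarith
    rw [abs_mul, abs_of_nonneg (sm_tri_nonneg _), abs_of_nonneg h3]
    have h4 : 1 / (n : ℝ) - 1 / (n + 1) ≤ 1 / (n : ℝ) ^ 2 := by
      rw [div_sub_div _ _ (by positivity) (by positivity),
        div_le_div_iff₀ (by positivity) (by positivity)]
      nlinarith
    calc tri (Real.log (((n : ℝ) + 1) / M)) * (1 / n - 1 / (n + 1))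
        ≤ 1 * (1 / n - 1 / (n + 1)) := mul_le_mul_of_nonneg_right (sm_tri_le _) h3
      _ ≤ _ := by linarith
  have h5 : |(tri (Real.log (((n : ℝ) + 1) / M)) - tri (Real.log (n / M))) / n|
      ≤ 1 / 4 / (n : ℝ) ^ 2 := by
    rw [abs_div, abs_of_pos hn0, div_le_iff₀ hn0]
    refine h1.trans (le_of_eq ?_)
    field_simp
  have h6 : 5 / 4 / (n : ℝ) ^ 2 ≤ 5 / 4 / (m : ℝ) ^ 2 := by
    apply div_le_div_of_nonneg_left (by norm_num) (by positivity)
    exact pow_le_pow_left₀ (by linarith) hn' 2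
  have h7 : 5 / 4 / (n : ℝ) ^ 2 = 1 / 4 / (n : ℝ) ^ 2 + 1 / (n : ℝ) ^ 2 := by
    field_simp
    norm_num
  linarith

/-- One block. -/
theorem sm_block {M u B : ℝ} (hM : 0 < M) {m : ℕ} (hm : 1 ≤ m) (hB : 0 ≤ B)
    (hS : ∀ t : ℕ, m ≤ t → t ≤ 2 * m → ‖∑ n ∈ Ioc m t, xiu n u‖ ≤ B) :
    ‖∑ n ∈ Ioc m (2 * m), ((tri (Real.log (n / M)) / n : ℝ) : ℂ) * xiu n u‖ ≤ 3 * B / m := by
  have hm' : (1 : ℝ) ≤ m := by exact_mod_cast hm
  have h1 := sm_abel (w := fun n => tri (Real.log (n / M)) / n) (z := fun n => xiu n u) (a := m)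
    (V := 5 / 4 / (m : ℝ) ^ 2) (b := 2 * m) (by omega) hS
    (fun n h1 h2 => by
      have := sm_w_var hM hm h1
      push_cast at this ⊢
      exact this)
  have h2 : ‖((tri (Real.log (((2 * m : ℕ) : ℝ) / M)) / ((2 * m : ℕ) : ℝ) : ℝ) : ℂ)
      * ∑ n ∈ Ioc m (2 * m), xiu n u‖ ≤ B / m := by
    rw [norm_mul, Complex.norm_real, Real.norm_eq_abs, abs_div, abs_of_nonneg (sm_tri_nonneg _),
      abs_of_nonneg (by positivity : (0 : ℝ) ≤ ((2 * m : ℕ) : ℝ))]
    have h3 := hS (2 * m) (by omega) le_rfl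
    have h4 := sm_tri_le (Real.log (((2 * m : ℕ) : ℝ) / M))
    have h5 : tri (Real.log (((2 * m : ℕ) : ℝ) / M)) / ((2 * m : ℕ) : ℝ) ≤ 1 / m := by
      rw [div_le_div_iff₀ (by positivity) (by positivity)]
      push_cast
      have h6 := sm_tri_nonneg (Real.log (((2 * m : ℕ) : ℝ) / M))
      push_cast at h4 h6
      nlinarith
    calc tri (Real.log (((2 * m : ℕ) : ℝ) / M)) / ((2 * m : ℕ) : ℝ)
          * ‖∑ n ∈ Ioc m (2 * m), xiu n u‖ ≤ 1 / m * B :=
          mul_le_mul h5 h3 (norm_nonneg _) (by positivity)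
      _ = _ := by ring
  have h3 : ‖∑ n ∈ Ioc m (2 * m), ((tri (Real.log (n / M)) / n : ℝ) : ℂ) * xiu n u‖
      ≤ (((2 * m : ℕ) : ℝ) - m) * (B * (5 / 4 / (m : ℝ) ^ 2)) + B / m := by
    have := norm_add_le (∑ n ∈ Ioc m (2 * m), ((tri (Real.log (n / M)) / n : ℝ) : ℂ) * xiu n u
      - ((tri (Real.log (((2 * m : ℕ) : ℝ) / M)) / ((2 * m : ℕ) : ℝ) : ℝ) : ℂ)
      * ∑ n ∈ Ioc m (2 * m), xiu n u)
      (((tri (Real.log (((2 * m : ℕ) : ℝ) / M)) / ((2 * m : ℕ) : ℝ) : ℝ) : ℂ)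
      * ∑ n ∈ Ioc m (2 * m), xiu n u)
    rw [sub_add_cancel] at this
    linarith
  refine h3.trans ?_
  push_cast
  have e : (2 * (m : ℝ) - m) * (B * (5 / 4 / (m : ℝ) ^ 2)) + B / m = (9 / 4) * B / m := by
    field_simp
    ring
  rw [e]
  apply div_le_div_of_nonneg_right _ (by positivity)
  linarith

/-- The sum over `(a, 2 ^ J a]`. -/
theorem sm_blocks {M u B : ℝ} (hM : 0 < M) {a : ℕ} (ha : 1 ≤ a) (J : ℕ)
    (hS : ∀ j < J, ∀ t : ℕ, 2 ^ j * a ≤ t → t ≤ 2 * (2 ^ j * a) →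
      ‖∑ n ∈ Ioc (2 ^ j * a) t, xiu n u‖ ≤ B * ((2 ^ j * a : ℕ) : ℝ)) :
    ‖∑ n ∈ Ioc a (2 ^ J * a), ((tri (Real.log (n / M)) / n : ℝ) : ℂ) * xiu n u‖ ≤ J * (3 * B) := by
  induction J with
  | zero => simp
  | succ J ih =>
    have ih' := ih (fun j hj => hS j (by omega))
    have h1 : a ≤ 2 ^ J * a := Nat.le_mul_of_pos_left _ (by positivity)
    have h2 : 2 ^ J * a ≤ 2 ^ (J + 1) * a := Nat.mul_le_mul_right _
      (Nat.pow_le_pow_right (by norm_num) (by omega))
    rw [← Finset.sum_Ioc_consecutive _ h1 h2]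
    have e : 2 ^ (J + 1) * a = 2 * (2 ^ J * a) := by ring
    have hm : 1 ≤ 2 ^ J * a := ha.trans h1
    have hm' : (0 : ℝ) < ((2 ^ J * a : ℕ) : ℝ) := by exact_mod_cast hm
    have hS' := hS J (by omega)
    have hB : 0 ≤ B * ((2 ^ J * a : ℕ) : ℝ) := (norm_nonneg _).trans (hS' _ le_rfl (by omega))
    have h3 := sm_block hM hm hB hS'
    rw [e]
    refine (norm_add_le _ _).trans ?_
    have e2 : 3 * (B * ((2 ^ J * a : ℕ) : ℝ)) / ((2 ^ J * a : ℕ) : ℝ) = 3 * B := by
      field_simp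
    rw [e2] at h3
    have e3 : ((J + 1 : ℕ) : ℝ) * (3 * B) = J * (3 * B) + 3 * B := by
      push_cast
      ring
    rw [e3]
    exact add_le_add ih' h3

theorem sm_extend {M u : ℝ} (hM : 0 < M) {a J : ℕ} (ha : (a : ℝ) ≤ M / Real.exp 4)
    (hJ : Real.exp 4 * M ≤ ((2 ^ J * a : ℕ) : ℝ)) :
    Ksum M u = ∑ n ∈ Ioc a (2 ^ J * a), ((tri (Real.log (n / M)) / n : ℝ) : ℂ) * xiu n u := by
  have he : (0 : ℝ) < Real.exp 4 := Real.exp_pos 4
  unfold Ksum
  have h1 : ∑ n ∈ Icc 1 ⌊Real.exp 4 * M⌋₊, ((tri (Real.log (n / M)) / n : ℝ) : ℂ) * xiu n u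
      = ∑ n ∈ Icc 1 (2 ^ J * a), ((tri (Real.log (n / M)) / n : ℝ) : ℂ) * xiu n u := by
    apply Finset.sum_subset
    · apply Finset.Icc_subset_Icc_right
      exact Nat.floor_le_of_le hJ
    · intro n hn hn2
      rw [Finset.mem_Icc] at hn hn2
      have h3 : ⌊Real.exp 4 * M⌋₊ < n := by omega
      have h4 : Real.exp 4 * M < n := (Nat.floor_lt (by positivity)).1 h3
      have h5 : 4 ≤ Real.log (n / M) := by
        rw [Real.le_log_iff_exp_le (div_pos (lt_trans (by positivity) h4) hM), le_div_iff₀ hM]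
        exact h4.le
      rw [sm_tri_zero (h5.trans (le_abs_self _))]
      simp
  rw [h1]
  symm
  apply Finset.sum_subset
  · intro n hn
    rw [Finset.mem_Ioc] at hn
    rw [Finset.mem_Icc]
    omega
  · intro n hn hn2
    rw [Finset.mem_Icc] at hn
    rw [Finset.mem_Ioc] at hn2
    have h3 : n ≤ a := by omega
    have h4 : (n : ℝ) ≤ M / Real.exp 4 := le_trans (by exact_mod_cast h3) ha
    have hn' : (1 : ℝ) ≤ n := by exact_mod_cast hn.1
    have h5 : Real.log (n / M) ≤ -4 := by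
      rw [Real.log_le_iff_le_exp (by positivity), Real.exp_neg, div_le_iff₀ hM]
      calc (n : ℝ) ≤ M / Real.exp 4 := h4
        _ = _ := by ring
    rw [sm_tri_zero (by rw [abs_of_nonpos (by linarith)]; linarith)]
    simp

theorem sm_Fh_bd (u : ℝ) : |Fh u| ≤ 4 := by
  unfold Fh
  split_ifs with h
  · norm_num
  · have h1 := Real.one_sub_sq_div_two_le_cos (x := 4 * u)
    have h2 := Real.cos_le_one (4 * u)
    have hu : 0 < u ^ 2 := by positivity
    rw [abs_of_nonneg (div_nonneg (by linarith) (by positivity)), div_le_iff₀ (by positivity)]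
    nlinarith

theorem sm_Fh_bd' {u : ℝ} (h : u ≠ 0) : |Fh u| ≤ 1 / u ^ 2 := by
  unfold Fh
  rw [if_neg h]
  have h1 := Real.neg_one_le_cos (4 * u)
  have h2 := Real.cos_le_one (4 * u)
  have hu : 0 < u ^ 2 := by positivity
  rw [abs_of_nonneg (div_nonneg (by linarith) (by positivity)),
    div_le_div_iff₀ (by positivity) (by positivity)]
  nlinarith

theorem sm_xiu_norm (x u : ℝ) : ‖xiu x u‖ = 1 := by
  unfold xiu
  rw [Complex.norm_exp_ofReal_mul_I]

theorem sm_K_triv {M : ℝ} (hM : 0 < M) (u : ℝ) : ‖Ksum M u‖ ≤ Real.exp 4 * M := by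
  unfold Ksum
  refine (norm_sum_le _ _).trans ?_
  have h : ∀ n ∈ Icc 1 ⌊Real.exp 4 * M⌋₊,
      ‖((tri (Real.log (n / M)) / n : ℝ) : ℂ) * xiu n u‖ ≤ 1 := by
    intro n hn
    have hn' : (1 : ℝ) ≤ n := by exact_mod_cast (Finset.mem_Icc.1 hn).1
    rw [norm_mul, sm_xiu_norm, mul_one, Complex.norm_real, Real.norm_eq_abs, abs_div,
      abs_of_nonneg (sm_tri_nonneg _), abs_of_nonneg (by linarith), div_le_iff₀ (by linarith)]
    linarith [sm_tri_le (Real.log (n / M))]
  refine (Finset.sum_le_sum h).trans ?_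
  rw [Finset.sum_const, nsmul_eq_mul, Nat.card_Icc, Nat.add_sub_cancel, mul_one]
  exact Nat.floor_le (by positivity)

theorem sm_block_one {A c C : ℝ} (hA : 1 ≤ A) (hc : 0 < c) (hC : 0 < C)
    (h : ∀ (M β u : ℝ) (a b : ℕ), 1 ≤ M → 0 ≤ β → β ≤ 1 → M ^ (1 / 2 : ℝ) ≤ |u| →
      |u| ≤ M ^ (2 * A) → M ≤ a → a ≤ b → (b : ℝ) ≤ 2 * M →
      ‖∑ m ∈ Ioc a b, xiu (m + β) u‖ ≤ C * M ^ (1 - c))
    {M u : ℝ} (hM : 1 ≤ M) (hu : |u| ≤ M ^ A) (hus : 128 * M ^ (1 / 2 : ℝ) < |u|) {a m : ℕ}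
    (ha1 : 1 ≤ a) (hMa : M ≤ (a : ℝ) ^ 2) (ham : a ≤ m) (hmM : (m : ℝ) ≤ 16384 * M) (t : ℕ)
    (ht1 : m ≤ t) (ht2 : t ≤ 2 * m) :
    ‖∑ n ∈ Ioc m t, xiu n u‖ ≤ C * (a : ℝ) ^ (-c) * m := by
  have hM0 : 0 < M := by linarith
  have ha1' : (1 : ℝ) ≤ a := by exact_mod_cast ha1
  have ham' : (a : ℝ) ≤ m := by exact_mod_cast ham
  have hm0 : (0 : ℝ) < m := by linarith
  have hsq : M ^ (1 / 2 : ℝ) * M ^ (1 / 2 : ℝ) = M := by
    rw [← Real.rpow_add hM0]
    norm_num
  have hm2 : (m : ℝ) ≤ (128 * M ^ (1 / 2 : ℝ)) ^ 2 := by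
    have : (128 * M ^ (1 / 2 : ℝ)) ^ 2 = 16384 * M := by
      rw [mul_pow, sq (M ^ (1 / 2 : ℝ)), hsq]
      norm_num
    rw [this]
    exact hmM
  have h3 : (m : ℝ) ^ (1 / 2 : ℝ) ≤ |u| := by
    calc (m : ℝ) ^ (1 / 2 : ℝ) ≤ ((128 * M ^ (1 / 2 : ℝ)) ^ 2) ^ (1 / 2 : ℝ) :=
          Real.rpow_le_rpow hm0.le hm2 (by norm_num)
      _ = 128 * M ^ (1 / 2 : ℝ) := by
        rw [← Real.sqrt_eq_rpow, Real.sqrt_sq (by positivity)]
      _ ≤ |u| := hus.le
  have h4 : |u| ≤ (m : ℝ) ^ (2 * A) := by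
    calc |u| ≤ M ^ A := hu
      _ ≤ ((a : ℝ) ^ 2) ^ A := Real.rpow_le_rpow hM0.le hMa (by linarith)
      _ = (a : ℝ) ^ (2 * A) := by
        rw [Real.rpow_mul (by positivity)]
        norm_num
      _ ≤ (m : ℝ) ^ (2 * A) := Real.rpow_le_rpow (by positivity) ham' (by linarith)
  have h1 := h m 0 u m t (by linarith) le_rfl (by norm_num) h3 h4 le_rfl ht1 (by exact_mod_cast ht2)
  simp only [add_zero] at h1
  refine h1.trans ?_
  rw [show (1 : ℝ) - c = -c + 1 by ring, Real.rpow_add_one hm0.ne', ← mul_assoc]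
  apply mul_le_mul_of_nonneg_right _ hm0.le
  apply mul_le_mul_of_nonneg_left _ hC.le
  exact Real.rpow_le_rpow_of_nonpos (by linarith) ham' (by linarith)

theorem sm_e4 : Real.exp 4 ≤ 60 := by
  have h27 : Real.exp 1 < 2.7182818286 := Real.exp_one_lt_d9
  have e4 : Real.exp 4 = Real.exp 1 ^ 4 := by
    rw [← Real.exp_nat_mul]
    norm_num
  rw [e4]
  calc Real.exp 1 ^ 4 ≤ 2.75 ^ 4 := pow_le_pow_left₀ (Real.exp_pos 1).le (by linarith) 4
    _ ≤ 60 := by norm_num

theorem sm_large {A c C : ℝ} (hA : 1 ≤ A) (hc : 0 < c) (hC : 0 < C)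
    (h : ∀ (M β u : ℝ) (a b : ℕ), 1 ≤ M → 0 ≤ β → β ≤ 1 → M ^ (1 / 2 : ℝ) ≤ |u| →
      |u| ≤ M ^ (2 * A) → M ≤ a → a ≤ b → (b : ℝ) ≤ 2 * M →
      ‖∑ m ∈ Ioc a b, xiu (m + β) u‖ ≤ C * M ^ (1 - c))
    {M u : ℝ} (hM : 1 ≤ M) (hMK : 4 * Real.exp 8 ≤ M) (hu : |u| ≤ M ^ A)
    (hus : 128 * M ^ (1 / 2 : ℝ) < |u|) :
    ∃ a : ℝ, 1 ≤ a ∧ M / (2 * Real.exp 4) ≤ a ∧ ‖Ksum M u‖ ≤ 39 * C * a ^ (-c) := by
  have he4 : (0 : ℝ) < Real.exp 4 := Real.exp_pos 4
  have he4' : (1 : ℝ) ≤ Real.exp 4 := Real.one_le_exp (by norm_num)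
  have hM0 : 0 < M := by linarith
  have he8 : Real.exp 8 = Real.exp 4 * Real.exp 4 := by
    rw [← Real.exp_add]
    norm_num
  set a := ⌊M / Real.exp 4⌋₊ with ha
  have haM : (a : ℝ) ≤ M / Real.exp 4 := Nat.floor_le (by positivity)
  have haM2 : M / Real.exp 4 < a + 1 := Nat.lt_floor_add_one _
  have hM4 : 4 * Real.exp 4 ≤ M / Real.exp 4 := by
    rw [le_div_iff₀ he4]
    linarith
  have ha1 : (1 : ℝ) ≤ a := by linarith
  have ha1' : 1 ≤ a := by exact_mod_cast ha1
  have ha2 : M / (2 * Real.exp 4) ≤ a := by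
    have : M / (2 * Real.exp 4) = M / Real.exp 4 / 2 := by field_simp
    rw [this]
    linarith
  have ha3 : M ≤ a * (2 * Real.exp 4) := by
    rwa [div_le_iff₀ (by positivity)] at ha2
  have hJ : Real.exp 4 * M ≤ ((2 ^ 13 * a : ℕ) : ℝ) := by
    push_cast
    have h6 : Real.exp 4 * Real.exp 4 ≤ 60 * 60 := mul_le_mul sm_e4 sm_e4 he4.le (by norm_num)
    have h7 : Real.exp 4 * M ≤ Real.exp 4 * (a * (2 * Real.exp 4)) :=
      mul_le_mul_of_nonneg_left ha3 he4.le
    have h8 : Real.exp 4 * (a * (2 * Real.exp 4)) = 2 * a * (Real.exp 4 * Real.exp 4) := by ring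
    have h9 : 2 * (a : ℝ) * (Real.exp 4 * Real.exp 4) ≤ 2 * a * (60 * 60) :=
      mul_le_mul_of_nonneg_left h6 (by linarith)
    linarith
  have hMa : M ≤ (a : ℝ) ^ 2 := by
    have h1 : 2 * Real.exp 4 ≤ a := by linarith
    calc M ≤ a * (2 * Real.exp 4) := ha3
      _ ≤ a * a := mul_le_mul_of_nonneg_left h1 (by linarith)
      _ = (a : ℝ) ^ 2 := by ring
  have haM' : (a : ℝ) ≤ M := haM.trans (div_le_self hM0.le he4')
  refine ⟨a, ha1, ha2, ?_⟩
  rw [sm_extend hM0 haM hJ]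
  have hblocks := sm_blocks (M := M) (u := u) (B := C * (a : ℝ) ^ (-c)) hM0 ha1' 13 (by
    intro j hj t ht1 ht2
    have hm1 : a ≤ 2 ^ j * a := Nat.le_mul_of_pos_left _ (by positivity)
    have hj2 : (2 : ℝ) ^ j ≤ 2 ^ 12 := pow_le_pow_right₀ (by norm_num) (by omega)
    have hm2 : ((2 ^ j * a : ℕ) : ℝ) ≤ 16384 * M := by
      push_cast
      calc (2 : ℝ) ^ j * a ≤ 2 ^ 12 * M := mul_le_mul hj2 haM' (by positivity) (by positivity)
        _ ≤ _ := by linarith
    exact sm_block_one hA hc hC h hM hu hus ha1' hMa hm1 hm2 t ht1 ht2)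
  refine hblocks.trans (le_of_eq ?_)
  push_cast
  ring

theorem st_SM (hV : ST_VDC) : ST_SM := by
  intro A hA
  obtain ⟨c, hc, C, hC, h⟩ := hV (2 * A) (by linarith)
  have he4 : (0 : ℝ) < Real.exp 4 := Real.exp_pos 4
  have he4' : (1 : ℝ) ≤ Real.exp 4 := Real.one_le_exp (by norm_num)
  set c' := min c (1 / 2) with hc'
  have hc0 : 0 < c' := lt_min hc (by norm_num)
  have hcc : c' ≤ c := min_le_left _ _
  have hch : c' ≤ 1 / 2 := min_le_right _ _
  set K₀ : ℝ := 4 * Real.exp 8 with hK₀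
  have hK₀1 : 1 ≤ K₀ := by
    have : (1 : ℝ) ≤ Real.exp 8 := Real.one_le_exp (by norm_num)
    linarith
  set C₁ : ℝ := (Real.exp 4 * K₀ + 4) * K₀ ^ c' with hC₁
  set C₂ : ℝ := 4 * Real.exp 12 * (5 / 4 + 128) with hC₂
  set C₃ : ℝ := 39 * C * (2 * Real.exp 4) ^ c' + 1 with hC₃
  have hC₁p : 0 < C₁ := by positivity
  have hC₂p : 0 < C₂ := by positivity
  have hC₃p : 0 < C₃ := by positivity
  refine ⟨c', hc0, C₁ + C₂ + C₃, by positivity, ?_⟩
  intro M u hM hu
  have hM0 : 0 < M := by linarith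
  have hMc : 0 < M ^ (-c') := Real.rpow_pos_of_pos hM0 _
  by_cases hMK : M < K₀
  · have h1 : ‖Ksum M u - xiu M u * (Fh u : ℂ)‖ ≤ Real.exp 4 * K₀ + 4 := by
      refine (norm_sub_le _ _).trans ?_
      rw [norm_mul, sm_xiu_norm, one_mul, Complex.norm_real, Real.norm_eq_abs]
      have h2 := sm_K_triv hM0 u
      have h3 := sm_Fh_bd u
      have h4 : Real.exp 4 * M ≤ Real.exp 4 * K₀ := mul_le_mul_of_nonneg_left hMK.le he4.le
      linarith
    have h2 : 1 ≤ K₀ ^ c' * M ^ (-c') := by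
      rw [Real.rpow_neg hM0.le, ← div_eq_mul_inv, ← Real.div_rpow (by linarith) hM0.le]
      apply Real.one_le_rpow _ hc0.le
      rw [one_le_div hM0]
      exact hMK.le
    calc ‖Ksum M u - xiu M u * (Fh u : ℂ)‖ ≤ (Real.exp 4 * K₀ + 4) * 1 := by linarith
      _ ≤ (Real.exp 4 * K₀ + 4) * (K₀ ^ c' * M ^ (-c')) :=
        mul_le_mul_of_nonneg_left h2 (by positivity)
      _ = C₁ * M ^ (-c') := by rw [hC₁]; ring
      _ ≤ (C₁ + C₂ + C₃) * M ^ (-c') := mul_le_mul_of_nonneg_right (by linarith) hMc.le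
  · push Not at hMK
    have he8 : Real.exp 8 = Real.exp 4 * Real.exp 4 := by
      rw [← Real.exp_add]
      norm_num
    have hMe : Real.exp 4 ≤ M := by nlinarith
    have hsq : M ^ (1 / 2 : ℝ) * M ^ (1 / 2 : ℝ) = M := by
      rw [← Real.rpow_add hM0]
      norm_num
    have hsq1 : 1 ≤ M ^ (1 / 2 : ℝ) := Real.one_le_rpow hM (by norm_num)
    by_cases hus : |u| ≤ 128 * M ^ (1 / 2 : ℝ)
    · refine (sm_small hMe).trans ?_
      have h1 : 5 / 4 + |u| ≤ (5 / 4 + 128) * M ^ (1 / 2 : ℝ) := by nlinarith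
      have h2 : 4 * Real.exp 12 * (5 / 4 + |u|) / M ≤ C₂ * M ^ (-(1 / 2) : ℝ) := by
        rw [div_le_iff₀ hM0, mul_assoc C₂, show M ^ (-(1 / 2) : ℝ) * M = M ^ (1 / 2 : ℝ) by
          rw [← Real.rpow_add_one hM0.ne']
          norm_num]
        calc 4 * Real.exp 12 * (5 / 4 + |u|) ≤ 4 * Real.exp 12 * ((5 / 4 + 128) * M ^ (1 / 2 : ℝ)) :=
              mul_le_mul_of_nonneg_left h1 (by positivity)
          _ = _ := by rw [hC₂]; ring
      have h3 : M ^ (-(1 / 2) : ℝ) ≤ M ^ (-c') := Real.rpow_le_rpow_of_exponent_le hM (by linarith)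
      calc _ ≤ _ := h2
        _ ≤ C₂ * M ^ (-c') := mul_le_mul_of_nonneg_left h3 hC₂p.le
        _ ≤ (C₁ + C₂ + C₃) * M ^ (-c') := mul_le_mul_of_nonneg_right (by linarith) hMc.le
    · push Not at hus
      have hu0 : 0 < |u| := lt_trans (by positivity) hus
      have hun : u ≠ 0 := abs_pos.1 hu0
      obtain ⟨a, ha1, ha2, hK⟩ := sm_large hA hc hC h hM hMK hu hus
      have hac : a ^ (-c) ≤ (2 * Real.exp 4) ^ c' * M ^ (-c') := by
        calc a ^ (-c) ≤ a ^ (-c') := Real.rpow_le_rpow_of_exponent_le ha1 (by linarith)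
          _ ≤ (M / (2 * Real.exp 4)) ^ (-c') :=
            Real.rpow_le_rpow_of_nonpos (by positivity) ha2 (by linarith)
          _ = _ := by
            rw [Real.div_rpow hM0.le (by positivity),
              Real.rpow_neg (by positivity : (0 : ℝ) ≤ 2 * Real.exp 4)]
            field_simp
      have hF : ‖xiu M u * (Fh u : ℂ)‖ ≤ M ^ (-c') := by
        rw [norm_mul, sm_xiu_norm, one_mul, Complex.norm_real, Real.norm_eq_abs]
        refine (sm_Fh_bd' hun).trans ?_
        have h1 : M ≤ u ^ 2 := by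
          have : M ^ (1 / 2 : ℝ) ≤ |u| := by linarith
          calc M = M ^ (1 / 2 : ℝ) * M ^ (1 / 2 : ℝ) := hsq.symm
            _ ≤ |u| * |u| := mul_le_mul this this (by positivity) (by positivity)
            _ = u ^ 2 := by rw [← sq, sq_abs]
        calc 1 / u ^ 2 ≤ 1 / M := one_div_le_one_div_of_le hM0 h1
          _ = M ^ (-1 : ℝ) := by rw [Real.rpow_neg_one, one_div]
          _ ≤ M ^ (-c') := Real.rpow_le_rpow_of_exponent_le hM (by linarith)
      refine (norm_sub_le _ _).trans ?_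
      have h9 : 39 * C * a ^ (-c) ≤ 39 * C * ((2 * Real.exp 4) ^ c' * M ^ (-c')) :=
        mul_le_mul_of_nonneg_left hac (by positivity)
      calc _ ≤ 39 * C * ((2 * Real.exp 4) ^ c' * M ^ (-c')) + M ^ (-c') :=
            add_le_add (hK.trans h9) hF
        _ = C₃ * M ^ (-c') := by rw [hC₃]; ring
        _ ≤ (C₁ + C₂ + C₃) * M ^ (-c') := mul_le_mul_of_nonneg_right (by linarith) hMc.le

end Pool.Agent.Helper40.MR
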